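import Pool.Agent.DKM.BoundAll

/-!
MP_4a6ba3: for all but eps N of the n <= N one has n# <= a(n) exp(C sqrt n).
-/

namespace Pool.Agent.DKM

open Finset ArithmeticFunction

/-- Sum of log p over the primes p > Y not dividing a(n). -/
noncomputable def W (Y n : ℕ) : ℝ := ∑ p ∈ (Bad n).filter (fun p => Y < p), Real.log p

theorem W_nonneg (Y n : ℕ) : 0 ≤ W Y n := by
  unfold W
  apply Finset.sum_nonneg
  intro p hp
  apply Real.log_nonneg
  rw [Finset.mem_filter, mem_Bad] at hp
  exact_mod_cast hp.1.2.1.one_lt.le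

theorem log_primorial_le (n Y : ℕ) :
    Real.log (primorial n) ≤ Real.log (a n) + 2 * Y + W Y n := by
  have h1 := primorial_le n
  have h2 : ∏ p ∈ Bad n, p ≤ 4 ^ Y * ∏ p ∈ (Bad n).filter (fun p => Y < p), p := by
    rw [← Finset.prod_filter_mul_prod_filter_not (Bad n) (fun p => Y < p), mul_comm]
    exact Nat.mul_le_mul_right _ (prod_bad_small n Y)
  have h3 : primorial n ≤ a n * (4 ^ Y * ∏ p ∈ (Bad n).filter (fun p => Y < p), p) :=
    h1.trans (Nat.mul_le_mul_left _ h2)
  have h4 : (primorial n : ℝ) ≤ a n * ((4 : ℝ) ^ Y * ∏ p ∈ (Bad n).filter (fun p => Y < p), (p : ℝ)) := by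
    have h3' := (Nat.cast_le (α := ℝ)).2 h3
    rw [Nat.cast_mul, Nat.cast_mul, Nat.cast_prod, Nat.cast_pow] at h3'
    exact_mod_cast h3'
  have hP : (0 : ℝ) < primorial n := by exact_mod_cast primorial_pos n
  have ha : (0 : ℝ) < a n := by exact_mod_cast a_pos n
  have hprod : (0 : ℝ) < ∏ p ∈ (Bad n).filter (fun p => Y < p), (p : ℝ) := by
    apply Finset.prod_pos
    intro p hp
    rw [Finset.mem_filter, mem_Bad] at hp
    exact_mod_cast hp.1.2.1.pos
  have h5 := Real.log_le_log hP h4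
  rw [Real.log_mul ha.ne' (by positivity), Real.log_mul (by positivity) hprod.ne',
    Real.log_pow] at h5
  have h6 : Real.log (∏ p ∈ (Bad n).filter (fun p => Y < p), (p : ℝ)) = W Y n := by
    unfold W
    rw [Real.log_prod]
    intro p hp
    rw [Finset.mem_filter, mem_Bad] at hp
    exact_mod_cast hp.1.2.1.ne_zero
  rw [h6] at h5
  have e4 : Real.log 4 ≤ 2 := by
    rw [Real.log_le_iff_le_exp (by norm_num)]
    have := Real.add_one_le_exp (1 : ℝ)
    have h2 : Real.exp 2 = Real.exp 1 * Real.exp 1 := by rw [← Real.exp_add]; norm_num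
    rw [h2]; nlinarith
  have hY0 : (0 : ℝ) ≤ Y := by positivity
  nlinarith

theorem count_fiber (p N Y : ℕ) (hY : N < (Y + 1) * (Y + 1)) (hpY : Y < p) :
    ((Icc 1 N).filter (fun n => p ∈ Bad n)).card
      ≤ p * ((Icc 1 (N / (Y + 1))).filter
        (fun t => (p : ℤ) ∣ (Hp t).num ∧ t * p ≤ N)).card := by
  apply Finset.card_le_mul_card_image_of_maps_to (f := fun n => n / p)
  · intro n hn
    simp only [Finset.mem_filter, Finset.mem_Icc] at hn ⊢
    obtain ⟨⟨h1, h2⟩, h3⟩ := hn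
    have h4 := (mem_Bad n p).1 h3
    refine ⟨⟨Nat.div_pos h4.1 h4.2.1.pos, ?_⟩, ?_, ?_⟩
    · exact (Nat.div_le_div_left hpY (Nat.succ_pos Y)).trans (Nat.div_le_div_right h2)
    · exact bad_dvd_num n p Y (lt_of_le_of_lt h2 hY) h3 hpY
    · exact (Nat.div_mul_le_self n p).trans h2
  · intro t _
    have hp0 : 0 < p := by omega
    calc (((Icc 1 N).filter (fun n => p ∈ Bad n)).filter (fun n => n / p = t)).card
        ≤ (Ico (t * p) (t * p + p)).card := by
          apply Finset.card_le_card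
          intro n hn
          rw [Finset.mem_filter] at hn
          rw [Finset.mem_Ico]
          have h1 := Nat.div_add_mod n p
          have h2 := Nat.mod_lt n hp0
          rw [hn.2, mul_comm] at h1
          generalize t * p = u at h1 ⊢
          constructor
          · omega
          · omega
      _ = p := by simp

theorem sum_log_le (t : ℕ) (ht : 1 ≤ t) (s : Finset ℕ) (hs : ∀ p ∈ s, p.Prime)
    (hd : ∀ p ∈ s, (p : ℤ) ∣ (Hp t).num) : ∑ p ∈ s, Real.log p ≤ 3 * t := by
  have h1 := prod_le_of_dvd_num t ht s hs hd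
  have h2 : (∏ p ∈ s, (p : ℝ)) ≤ (8 : ℝ) ^ t := by
    have h1' := (Nat.cast_le (α := ℝ)).2 h1
    rw [Nat.cast_prod, Nat.cast_pow] at h1'
    exact_mod_cast h1'
  have hprod : (0 : ℝ) < ∏ p ∈ s, (p : ℝ) := by
    apply Finset.prod_pos
    intro p hp
    exact_mod_cast (hs p hp).pos
  have h3 := Real.log_le_log hprod h2
  rw [Real.log_pow, Real.log_prod (fun p hp => by exact_mod_cast (hs p hp).ne_zero)] at h3
  have e8 : Real.log 8 ≤ 3 := by
    rw [Real.log_le_iff_le_exp (by norm_num)]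
    have := Real.add_one_le_exp (1 : ℝ)
    have h2 : Real.exp 3 = Real.exp 1 * Real.exp 1 * Real.exp 1 := by
      rw [← Real.exp_add, ← Real.exp_add]; norm_num
    rw [h2]; nlinarith [mul_nonneg (sub_nonneg.2 this) (sub_nonneg.2 this)]
  have ht0 : (0 : ℝ) ≤ t := by positivity
  nlinarith

/-- First moment of W over n <= N. -/
theorem sum_W_le (N Y : ℕ) (hY : N < (Y + 1) * (Y + 1)) :
    ∑ n ∈ Icc 1 N, W Y n ≤ 3 * N * ((N / (Y + 1) : ℕ) : ℝ) := by
  set x := N / (Y + 1) with hx
  set P := (range (N + 1)).filter (fun p => p.Prime ∧ Y < p) with hP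
  have hPm : ∀ p, p ∈ P ↔ p ≤ N ∧ p.Prime ∧ Y < p := by
    intro p
    rw [hP, Finset.mem_filter, Finset.mem_range, Nat.lt_succ_iff]
  have e1 : ∀ n ∈ Icc 1 N, W Y n = ∑ p ∈ P, if p ∈ Bad n then Real.log p else 0 := by
    intro n hn
    rw [Finset.mem_Icc] at hn
    rw [← Finset.sum_filter]
    unfold W
    apply Finset.sum_congr _ (fun _ _ => rfl)
    ext p
    rw [Finset.mem_filter, Finset.mem_filter, hPm]
    constructor
    · rintro ⟨h1, h2⟩
      have h3 := (mem_Bad n p).1 h1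
      exact ⟨⟨h3.1.trans hn.2, h3.2.1, h2⟩, h1⟩
    · rintro ⟨⟨_, _, h2⟩, h1⟩
      exact ⟨h1, h2⟩
  rw [Finset.sum_congr rfl e1, Finset.sum_comm]
  have e2 : ∀ p ∈ P, (∑ n ∈ Icc 1 N, if p ∈ Bad n then Real.log p else 0)
      ≤ ∑ t ∈ Icc 1 x, if (p : ℤ) ∣ (Hp t).num ∧ t * p ≤ N then (p : ℝ) * Real.log p else 0 := by
    intro p hp
    rw [hPm] at hp
    rw [← Finset.sum_filter, ← Finset.sum_filter, Finset.sum_const, Finset.sum_const,
      nsmul_eq_mul, nsmul_eq_mul]
    have h1 := count_fiber p N Y hY hp.2.2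
    have h2 : (((Icc 1 N).filter (fun n => p ∈ Bad n)).card : ℝ)
      ≤ p * (((Icc 1 x).filter
        (fun t => (p : ℤ) ∣ (Hp t).num ∧ t * p ≤ N)).card : ℝ) := by exact_mod_cast h1
    have h3 : 0 ≤ Real.log p := Real.log_nonneg (by exact_mod_cast hp.2.1.one_lt.le)
    calc _ ≤ (p * (((Icc 1 x).filter
        (fun t => (p : ℤ) ∣ (Hp t).num ∧ t * p ≤ N)).card : ℝ)) * Real.log p :=
          mul_le_mul_of_nonneg_right h2 h3
      _ = _ := by ring
  refine (Finset.sum_le_sum e2).trans ?_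
  rw [Finset.sum_comm]
  have e3 : ∀ t ∈ Icc 1 x,
      (∑ p ∈ P, if (p : ℤ) ∣ (Hp t).num ∧ t * p ≤ N then (p : ℝ) * Real.log p else 0)
      ≤ 3 * N := by
    intro t ht
    rw [Finset.mem_Icc] at ht
    rw [← Finset.sum_filter]
    have ht0 : (0 : ℝ) < t := by exact_mod_cast ht.1
    calc ∑ p ∈ P.filter (fun p : ℕ => (p : ℤ) ∣ (Hp t).num ∧ t * p ≤ N), (p : ℝ) * Real.log p
        ≤ ∑ p ∈ P.filter (fun p : ℕ => (p : ℤ) ∣ (Hp t).num ∧ t * p ≤ N),
          ((N : ℝ) / t) * Real.log p := by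
          apply Finset.sum_le_sum
          intro p hp
          rw [Finset.mem_filter, hPm] at hp
          apply mul_le_mul_of_nonneg_right
          · rw [le_div_iff₀ ht0]
            have := hp.2.2
            have h2 : ((t * p : ℕ) : ℝ) ≤ N := by exact_mod_cast this
            push_cast at h2
            linarith
          · exact Real.log_nonneg (by exact_mod_cast hp.1.2.1.one_lt.le)
      _ = ((N : ℝ) / t) * ∑ p ∈ P.filter (fun p : ℕ => (p : ℤ) ∣ (Hp t).num ∧ t * p ≤ N),
          Real.log p := by rw [Finset.mul_sum]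
      _ ≤ ((N : ℝ) / t) * (3 * t) := by
          apply mul_le_mul_of_nonneg_left _ (by positivity)
          apply sum_log_le t ht.1
          · intro p hp
            rw [Finset.mem_filter, hPm] at hp
            exact hp.1.2.1
          · intro p hp
            rw [Finset.mem_filter] at hp
            exact hp.2.1
      _ = 3 * N := by field_simp
  refine (Finset.sum_le_sum e3).trans ?_
  rw [Finset.sum_const, Nat.card_Icc, Nat.add_sub_cancel, nsmul_eq_mul]
  linarith

/-- For all but eps N of the n <= N: n# <= a(n) exp(C sqrt n). -/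
theorem bound_most (ε : ℝ) (hε : 0 < ε) : ∃ C : ℝ, ∀ N : ℕ,
    (((Icc 1 N).filter (fun n : ℕ =>
      (a n : ℝ) * Real.exp (C * Real.sqrt n) < primorial n)).card : ℝ) ≤ ε * N := by
  refine ⟨(6 / ε + 2) / Real.sqrt (ε / 2), ?_⟩
  intro N
  set C : ℝ := (6 / ε + 2) / Real.sqrt (ε / 2) with hC
  rcases Nat.eq_zero_or_pos N with h0 | hN
  · subst h0; simp
  set Y := Nat.sqrt N with hYd
  have hY : N < (Y + 1) * (Y + 1) := Nat.lt_succ_sqrt N
  have hNr : (0 : ℝ) < N := by exact_mod_cast hN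
  have hsN : 0 < Real.sqrt N := Real.sqrt_pos.2 hNr
  have hYs : (Y : ℝ) ≤ Real.sqrt N := by
    apply Real.le_sqrt_of_sq_le
    have : Y * Y ≤ N := Nat.sqrt_le N
    have h2 : ((Y * Y : ℕ) : ℝ) ≤ N := by exact_mod_cast this
    push_cast at h2
    nlinarith
  have hx : ((N / (Y + 1) : ℕ) : ℝ) ≤ Real.sqrt N := by
    have h1 : ((N / (Y + 1) : ℕ) : ℝ) ≤ (N : ℝ) / ((Y + 1 : ℕ) : ℝ) := Nat.cast_div_le
    refine h1.trans ?_
    rw [div_le_iff₀ (by positivity)]
    have h2 : (N : ℝ) < ((Y : ℝ) + 1) * ((Y : ℝ) + 1) := by exact_mod_cast hY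
    have h3 : Real.sqrt N ≤ (Y : ℝ) + 1 := by
      rw [Real.sqrt_le_left (by positivity)]; nlinarith
    have h4 : Real.sqrt N * Real.sqrt N = N := Real.mul_self_sqrt hNr.le
    push_cast
    nlinarith
  have he2 : 0 < ε / 2 := by positivity
  have hs2 : 0 < Real.sqrt (ε / 2) := Real.sqrt_pos.2 he2
  -- the exceptional set splits
  have hsub : (Icc 1 N).filter (fun n : ℕ =>
      (a n : ℝ) * Real.exp (C * Real.sqrt n) < primorial n)
      ⊆ (Icc 1 ⌊ε / 2 * N⌋₊) ∪ (Icc 1 N).filter (fun n => (6 / ε) * Real.sqrt N < W Y n) := by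
    intro n hn
    rw [Finset.mem_filter, Finset.mem_Icc] at hn
    obtain ⟨⟨h1, h2⟩, h3⟩ := hn
    rw [Finset.mem_union, Finset.mem_filter, Finset.mem_Icc, Finset.mem_Icc]
    by_cases h4 : (n : ℝ) ≤ ε / 2 * N
    · left
      exact ⟨h1, Nat.le_floor h4⟩
    · right
      rw [not_le] at h4
      refine ⟨⟨h1, h2⟩, ?_⟩
      have ha : (0 : ℝ) < a n := by exact_mod_cast a_pos n
      have h5 : Real.log (a n) + C * Real.sqrt n < Real.log (primorial n) := by
        have := Real.log_lt_log (by positivity) h3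
        rwa [Real.log_mul ha.ne' (Real.exp_pos _).ne', Real.log_exp] at this
      have h6 := log_primorial_le n Y
      have h7 : Real.sqrt (ε / 2) * Real.sqrt N ≤ Real.sqrt n := by
        rw [← Real.sqrt_mul he2.le]
        exact Real.sqrt_le_sqrt h4.le
      have h8 : (6 / ε + 2) * Real.sqrt N ≤ C * Real.sqrt n := by
        have h9 : C * (Real.sqrt (ε / 2) * Real.sqrt N) = (6 / ε + 2) * Real.sqrt N := by
          rw [hC]; field_simp
        rw [← h9]
        apply mul_le_mul_of_nonneg_left h7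
        rw [hC]; positivity
      nlinarith
  have hcard2 : (((Icc 1 N).filter (fun n => (6 / ε) * Real.sqrt N < W Y n)).card : ℝ)
      ≤ ε / 2 * N := by
    have h1 : (((Icc 1 N).filter (fun n => (6 / ε) * Real.sqrt N < W Y n)).card : ℝ)
        * ((6 / ε) * Real.sqrt N) ≤ 3 * N * Real.sqrt N := by
      calc (((Icc 1 N).filter (fun n => (6 / ε) * Real.sqrt N < W Y n)).card : ℝ)
            * ((6 / ε) * Real.sqrt N)
          = ∑ n ∈ (Icc 1 N).filter (fun n => (6 / ε) * Real.sqrt N < W Y n),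
              ((6 / ε) * Real.sqrt N) := by rw [Finset.sum_const, nsmul_eq_mul]
        _ ≤ ∑ n ∈ (Icc 1 N).filter (fun n => (6 / ε) * Real.sqrt N < W Y n), W Y n := by
            apply Finset.sum_le_sum
            intro n hn
            rw [Finset.mem_filter] at hn
            exact hn.2.le
        _ ≤ ∑ n ∈ Icc 1 N, W Y n :=
            Finset.sum_le_sum_of_subset_of_nonneg (Finset.filter_subset _ _)
              (fun n _ _ => W_nonneg Y n)
        _ ≤ 3 * N * ((N / (Y + 1) : ℕ) : ℝ) := sum_W_le N Y hY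
        _ ≤ 3 * N * Real.sqrt N := by
            apply mul_le_mul_of_nonneg_left hx (by positivity)
    have h2 : 3 * (N : ℝ) * Real.sqrt N = (ε / 2 * N) * ((6 / ε) * Real.sqrt N) := by
      field_simp; norm_num
    rw [h2] at h1
    exact le_of_mul_le_mul_right h1 (by positivity)
  calc _ ≤ (((Icc 1 ⌊ε / 2 * N⌋₊) ∪
        (Icc 1 N).filter (fun n => (6 / ε) * Real.sqrt N < W Y n)).card : ℝ) := by
        exact_mod_cast Finset.card_le_card hsub
    _ ≤ ((Icc 1 ⌊ε / 2 * N⌋₊).card : ℝ)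
        + (((Icc 1 N).filter (fun n => (6 / ε) * Real.sqrt N < W Y n)).card : ℝ) := by
        exact_mod_cast Finset.card_union_le _ _
    _ ≤ ε / 2 * N + ε / 2 * N := by
        apply add_le_add _ hcard2
        rw [Nat.card_Icc, Nat.add_sub_cancel]
        exact Nat.floor_le (by positivity)
    _ = ε * N := by ring

end Pool.Agent.DKM
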