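import Mathlib

/-!
MP_4a6ba3: denominators of the partial sums of k^(mu k). Basic definitions and lemmas.
-/

namespace Pool.Agent.DKM

open Finset ArithmeticFunction

/-- S(n) = sum over 1 <= k <= n of k^(mu k). -/
def S (n : ℕ) : ℚ := ∑ k ∈ Icc 1 n, (k : ℚ) ^ (moebius k)

/-- a(n) = denominator of S(n) in lowest terms. -/
def a (n : ℕ) : ℕ := (S n).den

/-- Sum of 1/m over m <= t with mu(m) = 1. -/
def Hp (t : ℕ) : ℚ := ∑ m ∈ (Icc 1 t).filter (fun m => moebius m = 1), (1 : ℚ) / m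

theorem not_dvd_den_sum {ι : Type*} (p : ℕ) (hp : p.Prime) (s : Finset ι) (f : ι → ℚ)
    (h : ∀ i ∈ s, ¬ p ∣ (f i).den) : ¬ p ∣ (∑ i ∈ s, f i).den := by
  classical
  induction s using Finset.induction_on with
  | empty => simpa using hp.one_lt.ne'
  | insert i s hi ih =>
    rw [Finset.sum_insert hi]
    intro hd
    have h1 : p ∣ (f i).den * (∑ j ∈ s, f j).den := hd.trans (Rat.add_den_dvd _ _)
    rcases hp.dvd_mul.1 h1 with h2 | h2
    · exact h i (Finset.mem_insert_self _ _) h2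
    · exact ih (fun j hj => h j (Finset.mem_insert_of_mem hj)) h2

theorem den_inv_nat (k : ℕ) (hk : k ≠ 0) : ((1 : ℚ) / k).den = k := by
  rw [one_div, Rat.inv_natCast_den]
  simp [hk]

theorem den_pow_moebius (p k : ℕ) (hp : p.Prime) (hk : 1 ≤ k)
    (h : ¬ (p ∣ k ∧ moebius k = -1)) : ¬ p ∣ ((k : ℚ) ^ (moebius k)).den := by
  rcases moebius_eq_or k with h0 | h0 | h0
  · rw [h0]; simpa using hp.one_lt.ne'
  · rw [h0]
    have : ((k : ℚ) ^ (1 : ℤ)) = ((k : ℕ) : ℚ) := by simp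
    rw [this, Rat.den_natCast]
    simpa using hp.one_lt.ne'
  · rw [h0]
    have h1 : ((k : ℚ) ^ (-1 : ℤ)) = 1 / (k : ℚ) := by
      rw [zpow_neg_one, one_div]
    rw [h1, den_inv_nat k (by omega)]
    intro hpk
    exact h ⟨hpk, h0⟩

theorem split_sum (p n : ℕ) :
    S n = (∑ k ∈ (Icc 1 n).filter (fun k => p ∣ k ∧ moebius k = -1), (1 : ℚ) / k)
      + ∑ k ∈ (Icc 1 n).filter (fun k => ¬ (p ∣ k ∧ moebius k = -1)), (k : ℚ) ^ (moebius k) := by
  unfold S
  rw [← Finset.sum_filter_add_sum_filter_not (Icc 1 n) (fun k => p ∣ k ∧ moebius k = -1)]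
  congr 1
  apply Finset.sum_congr rfl
  intro k hk
  rw [Finset.mem_filter] at hk
  rw [hk.2.2, zpow_neg_one, one_div]

theorem moebius_mul_prime (p m : ℕ) (hp : p.Prime) (h : ¬ p ∣ m) :
    moebius (p * m) = - moebius m := by
  rw [isMultiplicative_moebius.map_mul_of_coprime ((Nat.Prime.coprime_iff_not_dvd hp).2 h),
    moebius_apply_prime hp]
  ring

theorem first_sum (p n : ℕ) (hp : p.Prime) (hpn : n < p * p) :
    (∑ k ∈ (Icc 1 n).filter (fun k => p ∣ k ∧ moebius k = -1), (1 : ℚ) / k)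
      = (1 / (p : ℚ)) * Hp (n / p) := by
  unfold Hp
  rw [Finset.mul_sum]
  symm
  have hnd : ∀ m, 1 ≤ m → m ≤ n / p → ¬ p ∣ m := by
    intro m hm1 hm hd
    have h1 := Nat.le_of_dvd (by omega) hd
    have h2 : p ≤ n / p := h1.trans hm
    have h3 := Nat.mul_le_of_le_div p p n h2
    omega
  apply Finset.sum_bij (fun m _ => p * m)
  · intro m hm
    simp only [Finset.mem_filter, Finset.mem_Icc] at hm ⊢
    obtain ⟨⟨h1, h2⟩, h3⟩ := hm
    refine ⟨⟨Nat.mul_pos hp.pos h1, ?_⟩, dvd_mul_right _ _, ?_⟩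
    · have := Nat.mul_le_of_le_div p m n h2
      rwa [mul_comm] at this
    · rw [moebius_mul_prime p m hp (hnd m h1 h2), h3]
  · intro m1 _ m2 _ h
    exact Nat.eq_of_mul_eq_mul_left hp.pos h
  · intro k hk
    simp only [Finset.mem_filter, Finset.mem_Icc] at hk
    obtain ⟨⟨h1, h2⟩, ⟨m, rfl⟩, h4⟩ := hk
    have hm1 : 1 ≤ m := by
      rcases Nat.eq_zero_or_pos m with h | h
      · subst h; simp at h1
      · exact h
    have hm2 : m ≤ n / p := by
      rw [Nat.le_div_iff_mul_le hp.pos, mul_comm]; exact h2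
    refine ⟨m, ?_, rfl⟩
    simp only [Finset.mem_filter, Finset.mem_Icc]
    refine ⟨⟨hm1, hm2⟩, ?_⟩
    rw [moebius_mul_prime p m hp (hnd m hm1 hm2)] at h4
    linarith
  · intro m hm
    push_cast
    rw [one_div, one_div, one_div, mul_inv]

/-- Key divisibility: a prime p with p^2 > n divides a(n) unless it divides the numerator of
the sum Hp (n / p). -/
theorem dvd_a (p n : ℕ) (hp : p.Prime) (hpn : n < p * p) (h : ¬ (p : ℤ) ∣ (Hp (n / p)).num) :
    p ∣ a n := by
  by_contra hd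
  unfold a at hd
  set A : ℚ := ∑ k ∈ (Icc 1 n).filter (fun k => ¬ (p ∣ k ∧ moebius k = -1)),
    (k : ℚ) ^ (moebius k) with hA
  have hAd : ¬ p ∣ A.den := by
    apply not_dvd_den_sum p hp
    intro k hk
    rw [Finset.mem_filter, Finset.mem_Icc] at hk
    exact den_pow_moebius p k hp hk.1.1 hk.2
  have hS := split_sum p n
  rw [first_sum p n hp hpn, ← hA] at hS
  set x : ℚ := (1 / (p : ℚ)) * Hp (n / p) with hx
  have hxd : ¬ p ∣ x.den := by
    have hxe : x = S n + (-A) := by rw [hS]; ring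
    rw [hxe]
    intro h1
    have h2 := h1.trans (Rat.add_den_dvd _ _)
    rcases hp.dvd_mul.1 h2 with h3 | h3
    · exact hd h3
    · rw [Rat.neg_den] at h3; exact hAd h3
  have hp0 : (p : ℚ) ≠ 0 := by exact_mod_cast hp.ne_zero
  have hH : Hp (n / p) = (p : ℚ) * x := by
    rw [hx]; field_simp
  -- numerators
  have e1 : ((Hp (n / p)).num : ℚ) * x.den = (p : ℚ) * x.num * (Hp (n / p)).den := by
    have h1 : ((Hp (n / p)).num : ℚ) = Hp (n / p) * (Hp (n / p)).den := by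
      rw [Rat.mul_den_eq_num]
    have h2 : (x.num : ℚ) = x * x.den := by rw [Rat.mul_den_eq_num]
    rw [h1, h2, hH]; ring
  have e2 : (Hp (n / p)).num * (x.den : ℤ) = (p : ℤ) * (x.num * (Hp (n / p)).den) := by
    have : (((Hp (n / p)).num * (x.den : ℤ) : ℤ) : ℚ)
        = (((p : ℤ) * (x.num * (Hp (n / p)).den) : ℤ) : ℚ) := by
      push_cast; rw [e1]; ring
    exact_mod_cast this
  have hpz : Prime (p : ℤ) := Nat.prime_iff_prime_int.1 hp
  have h5 : (p : ℤ) ∣ (Hp (n / p)).num * (x.den : ℤ) := ⟨_, e2⟩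
  rcases hpz.dvd_or_dvd h5 with h6 | h6
  · exact h h6
  · exact hxd (by exact_mod_cast h6)

theorem squarefree_dvd_primorial (m t : ℕ) (hm : Squarefree m) (h : m ≤ t) :
    m ∣ primorial t := by
  rw [← Nat.prod_primeFactors_of_squarefree hm]
  unfold primorial
  apply Finset.prod_dvd_prod_of_subset
  intro p hp
  rw [Nat.mem_primeFactors] at hp
  simp only [Finset.mem_filter, Finset.mem_range]
  exact ⟨by have := Nat.le_of_dvd (Nat.pos_of_ne_zero hp.2.2) hp.2.1; omega, hp.1⟩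

theorem Hp_pos (t : ℕ) (ht : 1 ≤ t) : 0 < Hp t := by
  unfold Hp
  apply Finset.sum_pos
  · intro m hm
    rw [Finset.mem_filter, Finset.mem_Icc] at hm
    have : (0 : ℚ) < m := by exact_mod_cast hm.1.1
    positivity
  · exact ⟨1, by simp [ht]⟩

theorem Hp_le (t : ℕ) : Hp t ≤ t := by
  unfold Hp
  calc (∑ m ∈ (Icc 1 t).filter (fun m => moebius m = 1), (1 : ℚ) / m)
      ≤ ∑ m ∈ (Icc 1 t).filter (fun m => moebius m = 1), (1 : ℚ) := by
        apply Finset.sum_le_sum
        intro m hm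
        rw [Finset.mem_filter, Finset.mem_Icc] at hm
        have h1 : (1 : ℚ) ≤ m := by exact_mod_cast hm.1.1
        rw [div_le_one (by linarith)]
        exact h1
    _ = (((Icc 1 t).filter (fun m => moebius m = 1)).card : ℚ) := by simp
    _ ≤ ((Icc 1 t).card : ℚ) := by exact_mod_cast Finset.card_filter_le _ _
    _ = t := by simp

theorem Hp_den_dvd (t : ℕ) : (Hp t).den ∣ primorial t := by
  have hP : (primorial t : ℚ) ≠ 0 := by exact_mod_cast (primorial_pos t).ne'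
  have h1 : ∃ z : ℤ, Hp t = (z : ℚ) / ((primorial t : ℤ) : ℚ) := by
    refine ⟨∑ m ∈ (Icc 1 t).filter (fun m => moebius m = 1), ((primorial t / m : ℕ) : ℤ), ?_⟩
    unfold Hp
    simp only [Int.cast_sum, Int.cast_natCast]
    rw [Finset.sum_div]
    apply Finset.sum_congr rfl
    intro m hm
    rw [Finset.mem_filter, Finset.mem_Icc] at hm
    have hsq : Squarefree m := by
      rw [← moebius_ne_zero_iff_squarefree, hm.2]; norm_num
    have hd := squarefree_dvd_primorial m t hsq hm.1.2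
    have hm0 : (m : ℚ) ≠ 0 := by
      have : m ≠ 0 := by omega
      exact_mod_cast this
    rw [Nat.cast_div hd hm0]
    field_simp
  obtain ⟨z, hz⟩ := h1
  rw [hz]
  have := Rat.den_dvd z (primorial t)
  exact_mod_cast this

/-- The numerator of Hp t is positive and at most 8^t. -/
theorem Hp_num (t : ℕ) (ht : 1 ≤ t) : 0 < (Hp t).num ∧ (Hp t).num.natAbs ≤ 8 ^ t := by
  have hpos : 0 < (Hp t).num := Rat.num_pos.2 (Hp_pos t ht)
  refine ⟨hpos, ?_⟩
  have h1 : ((Hp t).num : ℚ) = Hp t * (Hp t).den := by rw [Rat.mul_den_eq_num]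
  have h2 : ((Hp t).den : ℚ) ≤ (4 : ℚ) ^ t := by
    have h3 : (Hp t).den ≤ primorial t := Nat.le_of_dvd (primorial_pos t) (Hp_den_dvd t)
    have h4 := h3.trans (primorial_le_four_pow t)
    exact_mod_cast h4
  have h5 : (t : ℚ) ≤ (2 : ℚ) ^ t := by
    have : t ≤ 2 ^ t := (Nat.lt_two_pow_self).le
    exact_mod_cast this
  have h6 : ((Hp t).num : ℚ) ≤ (8 : ℚ) ^ t := by
    rw [h1]
    calc Hp t * (Hp t).den ≤ (2 : ℚ) ^ t * (4 : ℚ) ^ t := by
          apply mul_le_mul ((Hp_le t).trans h5) h2 (by positivity) (by positivity)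
      _ = (8 : ℚ) ^ t := by rw [← mul_pow]; norm_num
  have h7 : (((Hp t).num.natAbs : ℕ) : ℤ) = (Hp t).num := by
    rw [Int.natCast_natAbs, abs_of_pos hpos]
  have h8 : (((Hp t).num.natAbs : ℕ) : ℚ) ≤ ((8 ^ t : ℕ) : ℚ) := by
    have : (((Hp t).num.natAbs : ℕ) : ℚ) = ((Hp t).num : ℚ) := by
      rw [← h7]; simp
    rw [this]; push_cast; exact h6
  exact_mod_cast h8

end Pool.Agent.DKM
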