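import Pool.Agent.DKM.Basic

/-!
MP_4a6ba3: the bound n# <= a(n) exp(5 n^(2/3)) for all n.
-/

namespace Pool.Agent.DKM

open Finset ArithmeticFunction

/-- Primes p <= n which do not divide a(n). -/
def Bad (n : ℕ) : Finset ℕ := (range (n + 1)).filter (fun p => p.Prime ∧ ¬ p ∣ a n)

theorem a_pos (n : ℕ) : 0 < a n := (S n).den_pos

theorem mem_Bad (n p : ℕ) : p ∈ Bad n ↔ p ≤ n ∧ p.Prime ∧ ¬ p ∣ a n := by
  unfold Bad
  simp only [Finset.mem_filter, Finset.mem_range, Nat.lt_succ_iff]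

theorem primorial_le (n : ℕ) : primorial n ≤ a n * ∏ p ∈ Bad n, p := by
  have h1 : primorial n = (∏ p ∈ (range (n + 1)).filter (fun p => p.Prime ∧ p ∣ a n), p)
      * ∏ p ∈ Bad n, p := by
    unfold primorial Bad
    rw [← Finset.prod_filter_mul_prod_filter_not ((range (n + 1)).filter (fun p => p.Prime))
      (fun p => p ∣ a n), Finset.filter_filter, Finset.filter_filter]
  rw [h1]
  apply Nat.mul_le_mul_right
  apply Nat.le_of_dvd (a_pos n)
  apply Finset.prod_primes_dvd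
  · intro p hp
    rw [Finset.mem_filter] at hp
    exact hp.2.1.prime
  · intro p hp
    rw [Finset.mem_filter] at hp
    exact hp.2.2

theorem bad_dvd_num (n p Y : ℕ) (hY : n < (Y + 1) * (Y + 1)) (hp : p ∈ Bad n) (hpY : Y < p) :
    (p : ℤ) ∣ (Hp (n / p)).num := by
  rw [mem_Bad] at hp
  by_contra h
  apply hp.2.2
  apply dvd_a p n hp.2.1 _ h
  calc n < (Y + 1) * (Y + 1) := hY
    _ ≤ p * p := Nat.mul_le_mul hpY hpY

/-- Distinct primes dividing the numerator of Hp t have product at most 8^t. -/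
theorem prod_le_of_dvd_num (t : ℕ) (ht : 1 ≤ t) (s : Finset ℕ) (hs : ∀ p ∈ s, p.Prime)
    (hd : ∀ p ∈ s, (p : ℤ) ∣ (Hp t).num) : ∏ p ∈ s, p ≤ 8 ^ t := by
  obtain ⟨h1, h2⟩ := Hp_num t ht
  refine le_trans ?_ h2
  apply Nat.le_of_dvd (by omega)
  apply Finset.prod_primes_dvd
  · intro p hp; exact (hs p hp).prime
  · intro p hp
    have := hd p hp
    exact Int.natCast_dvd.1 this

theorem prod_bad_large (n Y : ℕ) (hY : n < (Y + 1) * (Y + 1)) :
    ∏ p ∈ (Bad n).filter (fun p => Y < p), p ≤ 8 ^ ((n / (Y + 1)) * (n / (Y + 1))) := by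
  set x := n / (Y + 1) with hx
  have hmap : ∀ p ∈ (Bad n).filter (fun p => Y < p), n / p ∈ Icc 1 x := by
    intro p hp
    rw [Finset.mem_filter, mem_Bad] at hp
    obtain ⟨⟨h1, h2, h3⟩, h4⟩ := hp
    rw [Finset.mem_Icc]
    refine ⟨Nat.div_pos h1 h2.pos, ?_⟩
    exact Nat.div_le_div_left h4 (Nat.succ_pos Y)
  rw [← Finset.prod_fiberwise_of_maps_to hmap]
  calc ∏ t ∈ Icc 1 x, ∏ p ∈ ((Bad n).filter (fun p => Y < p)).filter (fun p => n / p = t), p
      ≤ ∏ t ∈ Icc 1 x, 8 ^ x := by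
        apply Finset.prod_le_prod'
        intro t ht
        rw [Finset.mem_Icc] at ht
        refine le_trans ?_ (Nat.pow_le_pow_right (by norm_num) ht.2)
        apply prod_le_of_dvd_num t ht.1
        · intro p hp
          simp only [Finset.mem_filter, mem_Bad] at hp
          exact hp.1.1.2.1
        · intro p hp
          rw [Finset.mem_filter, Finset.mem_filter] at hp
          have := bad_dvd_num n p Y hY hp.1.1 hp.1.2
          rwa [hp.2] at this
    _ = 8 ^ (x * x) := by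
        rw [Finset.prod_const, Nat.card_Icc, Nat.add_sub_cancel, ← pow_mul]

theorem prod_bad_small (n Y : ℕ) : ∏ p ∈ (Bad n).filter (fun p => ¬ Y < p), p ≤ 4 ^ Y := by
  refine le_trans ?_ (primorial_le_four_pow Y)
  unfold primorial
  apply Nat.le_of_dvd (primorial_pos Y)
  apply Finset.prod_dvd_prod_of_subset
  intro p hp
  simp only [Finset.mem_filter, mem_Bad, Finset.mem_range, not_lt] at hp ⊢
  exact ⟨by omega, hp.1.2.1⟩

theorem main_ineq (n Y : ℕ) (hY : n < (Y + 1) * (Y + 1)) :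
    primorial n ≤ a n * (4 ^ Y * 8 ^ ((n / (Y + 1)) * (n / (Y + 1)))) := by
  refine (primorial_le n).trans ?_
  apply Nat.mul_le_mul_left
  rw [← Finset.prod_filter_mul_prod_filter_not (Bad n) (fun p => Y < p), mul_comm]
  exact Nat.mul_le_mul (prod_bad_small n Y) (prod_bad_large n Y hY)

/-- For all n >= 1: n# <= a(n) exp(5 n^(2/3)). -/
theorem bound_all (n : ℕ) (hn : 1 ≤ n) :
    (primorial n : ℝ) ≤ a n * Real.exp (5 * (n : ℝ) ^ (2 / 3 : ℝ)) := by
  set z : ℝ := (n : ℝ) ^ (1 / 3 : ℝ) with hz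
  have hn1 : (1 : ℝ) ≤ n := by exact_mod_cast hn
  have hz1 : 1 ≤ z := Real.one_le_rpow hn1 (by norm_num)
  have hz2 : z ^ 2 = (n : ℝ) ^ (2 / 3 : ℝ) := by
    rw [hz, ← Real.rpow_natCast, ← Real.rpow_mul (by positivity)]; norm_num
  have hz3 : z ^ 3 = n := by
    rw [hz, ← Real.rpow_natCast, ← Real.rpow_mul (by positivity)]; norm_num
  set Y : ℕ := ⌊z ^ 2⌋₊ with hYdef
  have hY1 : (Y : ℝ) ≤ z ^ 2 := Nat.floor_le (by positivity)
  have hY2 : z ^ 2 < (Y : ℝ) + 1 := Nat.lt_floor_add_one _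
  have hY : n < (Y + 1) * (Y + 1) := by
    have : (n : ℝ) < ((Y : ℝ) + 1) * ((Y : ℝ) + 1) := by
      calc (n : ℝ) = z ^ 3 := hz3.symm
        _ ≤ z ^ 2 * z ^ 2 := by nlinarith [pow_pos (lt_of_lt_of_le one_pos hz1) 3]
        _ < ((Y : ℝ) + 1) * ((Y : ℝ) + 1) := by nlinarith [pow_pos (lt_of_lt_of_le one_pos hz1) 2]
    exact_mod_cast this
  have hx : ((n / (Y + 1) : ℕ) : ℝ) ≤ z := by
    have h1 : ((n / (Y + 1) : ℕ) : ℝ) ≤ (n : ℝ) / ((Y + 1 : ℕ) : ℝ) := Nat.cast_div_le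
    refine h1.trans ?_
    push_cast
    rw [div_le_iff₀ (by positivity), ← hz3]
    nlinarith
  have h := main_ineq n Y hY
  have h' : (primorial n : ℝ) ≤ a n * ((4 : ℝ) ^ Y * (8 : ℝ) ^ ((n / (Y + 1)) * (n / (Y + 1)))) := by
    exact_mod_cast h
  refine h'.trans ?_
  apply mul_le_mul_of_nonneg_left _ (by positivity)
  have e4 : (4 : ℝ) ≤ Real.exp 2 := by
    have := Real.add_one_le_exp (1 : ℝ)
    have h2 : Real.exp 2 = Real.exp 1 * Real.exp 1 := by rw [← Real.exp_add]; norm_num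
    rw [h2]; nlinarith
  have e8 : (8 : ℝ) ≤ Real.exp 3 := by
    have := Real.add_one_le_exp (1 : ℝ)
    have h2 : Real.exp 3 = Real.exp 1 * Real.exp 1 * Real.exp 1 := by
      rw [← Real.exp_add, ← Real.exp_add]; norm_num
    rw [h2]; nlinarith [mul_nonneg (sub_nonneg.2 this) (sub_nonneg.2 this)]
  calc (4 : ℝ) ^ Y * (8 : ℝ) ^ ((n / (Y + 1)) * (n / (Y + 1)))
      ≤ (Real.exp 2) ^ Y * (Real.exp 3) ^ ((n / (Y + 1)) * (n / (Y + 1))) := by
        apply mul_le_mul (pow_le_pow_left₀ (by norm_num) e4 _)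
          (pow_le_pow_left₀ (by norm_num) e8 _) (by positivity) (by positivity)
    _ = Real.exp (2 * Y + 3 * (((n / (Y + 1) : ℕ) : ℝ) * ((n / (Y + 1) : ℕ) : ℝ))) := by
        rw [← Real.exp_nat_mul, ← Real.exp_nat_mul, ← Real.exp_add]
        push_cast
        ring_nf
    _ ≤ Real.exp (5 * (n : ℝ) ^ (2 / 3 : ℝ)) := by
        apply Real.exp_le_exp.2
        rw [← hz2]
        have h0 : (0 : ℝ) ≤ ((n / (Y + 1) : ℕ) : ℝ) := by positivity
        nlinarith

end Pool.Agent.DKM
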