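import Pool.Agent.DKM.Basic

/-!
MP_4a6ba3: a(n) differs from n# for a positive proportion of n.
-/

namespace Pool.Agent.DKM

open Finset ArithmeticFunction

theorem a_dvd_primorial (n : ℕ) : a n ∣ primorial n := by
  have h1 : ∃ z : ℤ, S n * (primorial n : ℚ) = z := by
    unfold S
    rw [Finset.sum_mul]
    have h2 : ∀ k ∈ Icc 1 n, ∃ z : ℤ, (k : ℚ) ^ (moebius k) * (primorial n : ℚ) = z := by
      intro k hk
      rw [Finset.mem_Icc] at hk
      rcases moebius_eq_or k with h0 | h0 | h0
      · rw [h0]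
        exact ⟨primorial n, by simp⟩
      · rw [h0]
        exact ⟨k * primorial n, by simp⟩
      · rw [h0]
        have hsq : Squarefree k := by
          rw [← moebius_ne_zero_iff_squarefree, h0]; norm_num
        obtain ⟨c, hc⟩ := squarefree_dvd_primorial k n hsq hk.2
        refine ⟨c, ?_⟩
        have hk0 : (k : ℚ) ≠ 0 := by
          have : k ≠ 0 := by omega
          exact_mod_cast this
        rw [hc, zpow_neg_one]
        push_cast
        field_simp
    choose! g hg using h2
    exact ⟨∑ k ∈ Icc 1 n, g k, by push_cast; exact Finset.sum_congr rfl hg⟩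
  obtain ⟨z, hz⟩ := h1
  have hP : (primorial n : ℚ) ≠ 0 := by exact_mod_cast (primorial_pos n).ne'
  have h3 : S n = (z : ℚ) / ((primorial n : ℤ) : ℚ) := by
    rw [← hz]; push_cast; field_simp
  unfold a
  rw [h3]
  have := Rat.den_dvd z (primorial n)
  exact_mod_cast this

theorem not_four_dvd_a (n : ℕ) : ¬ 4 ∣ a n := by
  intro h
  have h1 := h.trans (a_dvd_primorial n)
  have hsq : Squarefree (primorial n) := by
    unfold primorial
    apply Finset.squarefree_prod_of_pairwise_isCoprime
    · intro p hp q hq hpq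
      rw [Finset.mem_coe, Finset.mem_filter] at hp hq
      exact Nat.coprime_iff_isRelPrime.1 ((Nat.coprime_primes hp.2 hq.2).2 hpq)
    · intro p hp
      rw [Finset.mem_filter] at hp
      exact hp.2.squarefree
  have h2 := hsq 2 (by simpa using h1)
  simp at h2

/-- a(2m-1) and a(2m) are not both even if m is odd and mu(m) = 1. -/
theorem flip (m : ℕ) (hm : m % 2 = 1) (hmu : moebius m = 1) :
    ¬ (2 ∣ a (2 * m - 1) ∧ 2 ∣ a (2 * m)) := by
  rintro ⟨h1, h2⟩
  obtain ⟨v, hv⟩ := h1
  obtain ⟨w, hw⟩ := h2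
  have hv1 : v % 2 = 1 := by
    by_contra hc
    apply not_four_dvd_a (2 * m - 1)
    rw [hv]
    have : 2 ∣ v := by omega
    obtain ⟨c, rfl⟩ := this
    exact ⟨c, by ring⟩
  have hw1 : w % 2 = 1 := by
    by_contra hc
    apply not_four_dvd_a (2 * m)
    rw [hw]
    have : 2 ∣ w := by omega
    obtain ⟨c, rfl⟩ := this
    exact ⟨c, by ring⟩
  have hm1 : 1 ≤ m := by omega
  -- the recursion
  have hrec : S (2 * m) = S (2 * m - 1) + 1 / (2 * (m : ℚ)) := by
    obtain ⟨j, hj⟩ : ∃ j, 2 * m = j + 1 := ⟨2 * m - 1, by omega⟩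
    have hj2 : 2 * m - 1 = j := by omega
    have hmj : moebius (j + 1) = -1 := by
      rw [← hj, moebius_mul_prime 2 m Nat.prime_two (by omega), hmu]
    rw [hj2, hj]
    unfold S
    rw [Finset.sum_Icc_succ_top (by omega), hmj, zpow_neg_one, one_div]
    congr 2
    have : ((j + 1 : ℕ) : ℚ) = ((2 * m : ℕ) : ℚ) := by rw [hj]
    rw [this]; push_cast; ring
  have hq := Rat.num_div_den (S (2 * m - 1))
  have hr := Rat.num_div_den (S (2 * m))
  have hcopq := (S (2 * m - 1)).reduced
  have hcopr := (S (2 * m)).reduced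
  unfold a at hv hw
  rw [hv] at hq hcopq
  rw [hw] at hr hcopr
  set u := (S (2 * m - 1)).num with hu
  set u' := (S (2 * m)).num with hu'
  have huodd : u % 2 = 1 := by
    by_contra hc
    have h3 : 2 ∣ u.natAbs := by omega
    have h4 : 2 ∣ Nat.gcd u.natAbs (2 * v) := Nat.dvd_gcd h3 (dvd_mul_right _ _)
    rw [hcopq] at h4
    omega
  have huodd' : u' % 2 = 1 := by
    by_contra hc
    have h3 : 2 ∣ u'.natAbs := by omega
    have h4 : 2 ∣ Nat.gcd u'.natAbs (2 * w) := Nat.dvd_gcd h3 (dvd_mul_right _ _)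
    rw [hcopr] at h4
    omega
  rw [← hq, ← hr] at hrec
  have hv0 : (v : ℚ) ≠ 0 := by
    have : v ≠ 0 := by omega
    exact_mod_cast this
  have hw0 : (w : ℚ) ≠ 0 := by
    have : w ≠ 0 := by omega
    exact_mod_cast this
  have hm0 : (m : ℚ) ≠ 0 := by
    have : m ≠ 0 := by omega
    exact_mod_cast this
  have e1 : (u' : ℚ) * v * m = (u : ℚ) * w * m + v * w := by
    push_cast at hrec
    field_simp at hrec
    linarith
  have e2 : u' * (v : ℤ) * (m : ℤ) = u * (w : ℤ) * (m : ℤ) + (v : ℤ) * (w : ℤ) := by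
    exact_mod_cast e1
  have e3 := congrArg (fun z : ℤ => (z : ZMod 2)) e2
  simp only [Int.cast_mul, Int.cast_add, Int.cast_natCast] at e3
  have o1 : (u' : ZMod 2) = 1 := by
    have : u' = 2 * (u' / 2) + 1 := by omega
    rw [this]; push_cast
    rw [show (2 : ZMod 2) = 0 from rfl]; ring
  have o2 : (u : ZMod 2) = 1 := by
    have : u = 2 * (u / 2) + 1 := by omega
    rw [this]; push_cast
    rw [show (2 : ZMod 2) = 0 from rfl]; ring
  have o3 : (v : ZMod 2) = 1 := by
    have : v = 2 * (v / 2) + 1 := by omega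
    rw [this]; push_cast
    rw [show (2 : ZMod 2) = 0 from rfl]; ring
  have o4 : (w : ZMod 2) = 1 := by
    have : w = 2 * (w / 2) + 1 := by omega
    rw [this]; push_cast
    rw [show (2 : ZMod 2) = 0 from rfl]; ring
  have o5 : (m : ZMod 2) = 1 := by
    have : m = 2 * (m / 2) + 1 := by omega
    rw [this]; push_cast
    rw [show (2 : ZMod 2) = 0 from rfl]; ring
  rw [o1, o2, o3, o4, o5] at e3
  revert e3
  decide

theorem two_dvd_primorial (n : ℕ) (hn : 2 ≤ n) : 2 ∣ primorial n := by
  unfold primorial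
  apply Finset.dvd_prod_of_mem (fun p => p)
  simp only [Finset.mem_filter, Finset.mem_range]
  exact ⟨by omega, Nat.prime_two⟩

/-- Lower bound for the number of failures by the number of odd m with mu(m) = 1. -/
theorem card_fail_ge (N : ℕ) :
    ((Icc 2 (N / 2)).filter (fun m => m % 2 = 1 ∧ moebius m = 1)).card
      ≤ ((Icc 1 N).filter (fun n => a n ≠ primorial n)).card := by
  classical
  apply Finset.card_le_card_of_injOn
    (fun m => if 2 ∣ a (2 * m - 1) then 2 * m else 2 * m - 1)
  · intro m hm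
    rw [Finset.mem_coe, Finset.mem_filter, Finset.mem_Icc] at hm
    obtain ⟨⟨h1, h2⟩, h3, h4⟩ := hm
    rw [Finset.mem_coe, Finset.mem_filter, Finset.mem_Icc]
    have hf := flip m h3 h4
    by_cases h5 : 2 ∣ a (2 * m - 1)
    · simp only [h5, if_true]
      refine ⟨by omega, ?_⟩
      intro h6
      apply hf
      refine ⟨h5, ?_⟩
      rw [h6]
      exact two_dvd_primorial _ (by omega)
    · simp only [h5, if_false]
      refine ⟨by omega, ?_⟩
      intro h6
      apply h5
      rw [h6]
      exact two_dvd_primorial _ (by omega)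
  · intro m1 h1 m2 h2 h
    rw [Finset.mem_coe, Finset.mem_filter, Finset.mem_Icc] at h1 h2
    dsimp only at h
    split_ifs at h <;> omega

/-- Odd m <= M with mu(m) = 1, from squarefree m' <= M/3 prime to 6. -/
theorem card_mu_ge (M : ℕ) :
    ((Icc 2 (M / 3)).filter (fun m => (m % 6 = 1 ∨ m % 6 = 5) ∧ Squarefree m)).card
      ≤ ((Icc 2 M).filter (fun m => m % 2 = 1 ∧ moebius m = 1)).card := by
  classical
  apply Finset.card_le_card_of_injOn (fun m => if moebius m = 1 then m else 3 * m)
  · intro m hm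
    rw [Finset.mem_coe, Finset.mem_filter, Finset.mem_Icc] at hm
    obtain ⟨⟨h1, h2⟩, h3, h4⟩ := hm
    rw [Finset.mem_coe, Finset.mem_filter, Finset.mem_Icc]
    by_cases h5 : moebius m = 1
    · simp only [h5, if_true]
      exact ⟨by omega, by omega, trivial⟩
    · simp only [h5, if_false]
      refine ⟨by omega, by omega, ?_⟩
      rw [moebius_mul_prime 3 m Nat.prime_three (by omega)]
      have h6 := moebius_ne_zero_iff_squarefree.2 h4
      rcases moebius_eq_or m with h0 | h0 | h0
      · exact absurd h0 h6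
      · exact absurd h0 h5
      · rw [h0]; norm_num
  · intro m1 h1 m2 h2 h
    rw [Finset.mem_coe, Finset.mem_filter, Finset.mem_Icc] at h1 h2
    dsimp only at h
    split_ifs at h <;> omega

theorem sum_inv_sq (K : ℕ) (hK : 4 ≤ K) :
    ∑ q ∈ Icc 5 K, (1 : ℝ) / (q * q) ≤ 1 / 4 - 1 / K := by
  induction K, hK using Nat.le_induction with
  | base => norm_num
  | succ K hK ih =>
    rw [Finset.sum_Icc_succ_top (by omega)]
    have hK0 : (0 : ℝ) < K := by
      have : 0 < K := by omega
      exact_mod_cast this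
    have h1 : (1 : ℝ) / (((K + 1 : ℕ) : ℝ) * ((K + 1 : ℕ) : ℝ)) ≤ 1 / K - 1 / ((K + 1 : ℕ) : ℝ) := by
      push_cast
      rw [div_sub_div _ _ hK0.ne' (by positivity), div_le_div_iff₀ (by positivity) (by positivity)]
      nlinarith
    linarith

theorem card_sqfree_ge (y : ℕ) :
    (y : ℝ) / 12 - 8 / 3 ≤
      (((Icc 2 y).filter (fun m => (m % 6 = 1 ∨ m % 6 = 5) ∧ Squarefree m)).card : ℝ) := by
  classical
  set A := (Icc 1 y).filter (fun m => m % 6 = 1 ∨ m % 6 = 5) with hA
  have hAc : 2 * (y / 6) ≤ A.card := by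
    have h1 : ((range (y / 6)).image (fun k => 6 * k + 1)) ∪
        ((range (y / 6)).image (fun k => 6 * k + 5)) ⊆ A := by
      intro m hm
      rw [Finset.mem_union, Finset.mem_image, Finset.mem_image] at hm
      rw [hA, Finset.mem_filter, Finset.mem_Icc]
      rcases hm with ⟨k, hk, rfl⟩ | ⟨k, hk, rfl⟩
      · rw [Finset.mem_range] at hk
        omega
      · rw [Finset.mem_range] at hk
        omega
    have h2 := Finset.card_le_card h1
    rw [Finset.card_union_of_disjoint, Finset.card_image_of_injective,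
      Finset.card_image_of_injective, Finset.card_range] at h2
    · omega
    · intro x1 x2 h; dsimp only at h; omega
    · intro x1 x2 h; dsimp only at h; omega
    · rw [Finset.disjoint_left]
      intro m hm hm'
      rw [Finset.mem_image] at hm hm'
      obtain ⟨k, _, rfl⟩ := hm
      obtain ⟨k', _, h⟩ := hm'
      omega
  set B := (Icc 5 y).biUnion (fun q => (Ioc 0 y).filter (fun m => q * q ∣ m)) with hB
  have hBc : (B.card : ℝ) ≤ y / 4 := by
    rcases Nat.lt_or_ge y 4 with hy | hy
    · have : B = ∅ := by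
        rw [hB, Finset.Icc_eq_empty (by omega)]; rfl
      rw [this]; simp only [Finset.card_empty, Nat.cast_zero]; positivity
    have h1 : B.card ≤ ∑ q ∈ Icc 5 y, y / (q * q) := by
      refine Finset.card_biUnion_le.trans ?_
      apply Finset.sum_le_sum
      intro q _
      rw [Nat.Ioc_filter_dvd_card_eq_div]
    have h2 : (B.card : ℝ) ≤ ∑ q ∈ Icc 5 y, (y : ℝ) * (1 / (q * q)) := by
      calc (B.card : ℝ) ≤ ((∑ q ∈ Icc 5 y, y / (q * q) : ℕ) : ℝ) := by exact_mod_cast h1
        _ = ∑ q ∈ Icc 5 y, ((y / (q * q) : ℕ) : ℝ) := by push_cast; rfl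
        _ ≤ _ := by
          apply Finset.sum_le_sum
          intro q _
          refine Nat.cast_div_le.trans ?_
          push_cast
          rw [mul_one_div]
    rw [← Finset.mul_sum] at h2
    have h3 := sum_inv_sq y hy
    have hy0 : (0 : ℝ) < y := by
      have : 0 < y := by omega
      exact_mod_cast this
    have h4 : (y : ℝ) * ∑ q ∈ Icc 5 y, (1 : ℝ) / (q * q) ≤ y * (1 / 4 - 1 / y) :=
      mul_le_mul_of_nonneg_left h3 hy0.le
    have h5 : (y : ℝ) * (1 / 4 - 1 / y) = y / 4 - 1 := by field_simp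
    linarith
  have hsub : A ⊆ (insert 1 ((Icc 2 y).filter
      (fun m => (m % 6 = 1 ∨ m % 6 = 5) ∧ Squarefree m))) ∪ B := by
    intro m hm
    rw [hA, Finset.mem_filter, Finset.mem_Icc] at hm
    obtain ⟨⟨h1, h2⟩, h3⟩ := hm
    rw [Finset.mem_union, Finset.mem_insert, Finset.mem_filter, Finset.mem_Icc]
    by_cases h4 : Squarefree m
    · left
      by_cases h5 : m = 1
      · left; exact h5
      · right; exact ⟨⟨by omega, h2⟩, h3, h4⟩
    · right
      rw [Nat.squarefree_iff_prime_squarefree] at h4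
      push Not at h4
      obtain ⟨q, hq, hd⟩ := h4
      rw [hB, Finset.mem_biUnion]
      have hq2 : q ≠ 2 := by
        rintro rfl
        omega
      have hq3 : q ≠ 3 := by
        rintro rfl
        omega
      have hq4 : q ≠ 4 := by
        rintro rfl
        revert hq; decide
      have hq1 := hq.two_le
      have hle := Nat.le_of_dvd (by omega) hd
      refine ⟨q, ?_, ?_⟩
      · rw [Finset.mem_Icc]
        refine ⟨by omega, ?_⟩
        nlinarith
      · rw [Finset.mem_filter, Finset.mem_Ioc]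
        exact ⟨⟨by omega, h2⟩, hd⟩
  have h1 := Finset.card_le_card hsub
  have h2 := Finset.card_union_le (insert 1 ((Icc 2 y).filter
      (fun m => (m % 6 = 1 ∨ m % 6 = 5) ∧ Squarefree m))) B
  have h3 := Finset.card_insert_le 1 ((Icc 2 y).filter
      (fun m => (m % 6 = 1 ∨ m % 6 = 5) ∧ Squarefree m))
  set c := ((Icc 2 y).filter (fun m => (m % 6 = 1 ∨ m % 6 = 5) ∧ Squarefree m)).card with hc
  have h4 : 2 * (y / 6) ≤ c + 1 + B.card := by omega
  have h5 : (2 : ℝ) * ((y / 6 : ℕ) : ℝ) ≤ c + 1 + B.card := by exact_mod_cast h4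
  have h6 : (y : ℝ) ≤ 6 * ((y / 6 : ℕ) : ℝ) + 5 := by
    have : y ≤ 6 * (y / 6) + 5 := by omega
    exact_mod_cast this
  linarith

/-- a(n) differs from n# for at least N/72 - 3 of the n <= N. -/
theorem fail_many (N : ℕ) :
    (N : ℝ) / 72 - 3 ≤ (((Icc 1 N).filter (fun n => a n ≠ primorial n)).card : ℝ) := by
  have h1 := card_fail_ge N
  have h2 := card_mu_ge (N / 2)
  have h3 := card_sqfree_ge (N / 2 / 3)
  have h4 : ((((Icc 2 (N / 2 / 3)).filter
      (fun m => (m % 6 = 1 ∨ m % 6 = 5) ∧ Squarefree m)).card : ℕ) : ℝ)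
      ≤ (((Icc 1 N).filter (fun n => a n ≠ primorial n)).card : ℝ) := by
    exact_mod_cast h2.trans h1
  have h5 : (N : ℝ) ≤ 6 * ((N / 2 / 3 : ℕ) : ℝ) + 5 := by
    have : N ≤ 6 * (N / 2 / 3) + 5 := by omega
    exact_mod_cast this
  linarith

end Pool.Agent.DKM
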